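import Pool.Agent.Y826.ZL.Y474.E
import Pool.Agent.Y826.ZL.Y474.F

/-!
Project Y826/Z, TRIV: the theorem.
-/

set_option autoImplicit false

namespace Pool.Agent.Y826.ZL.Y474

open Finset Filter
open Pool.Agent.Y826.Z

variable {K : ℕ}

theorem Ph_le {X : ℝ} {Z : ℕ} (hL : 1 ≤ Real.log X) (hZ : Real.log Z ≤ 2 * Real.log X) :
    Ph K Z ≤ 10 ^ (2 * K) * Real.log X ^ (4 * K) := by
  have h0 : 0 ≤ Real.log Z := Real.log_natCast_nonneg Z
  have h1 : S0 Z ≤ (3 * Real.log X) ^ 2 :=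
    (S0_le Z).trans (pow_le_pow_left₀ (by linarith) (by linarith) 2)
  have h2 : 1 + S0 Z ≤ 10 * Real.log X ^ 2 := by nlinarith
  unfold Ph
  calc (1 + S0 Z) ^ (2 * K) ≤ (10 * Real.log X ^ 2) ^ (2 * K) :=
        pow_le_pow_left₀ (by linarith [S0_nonneg Z]) h2 _
    _ = _ := by
        rw [mul_pow, ← pow_mul]
        congr 2
        ring

theorem Pr_rs (G : Finset (Fin K)) (u : Fin K → ℕ) : Pr u = Pr (rs G u) * Pr (rs Gᶜ u) := by
  classical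
  unfold Pr
  rw [← prod_mul_distrib]
  apply prod_congr rfl
  intro j _
  unfold rs
  by_cases hj : j ∈ G
  · have h2 : j ∉ Gᶜ := fun hc => (Finset.mem_compl.1 hc) hj
    simp [hj]
  · have h2 : j ∈ Gᶜ := Finset.mem_compl.2 hj
    simp [hj]

theorem low {ε X : ℝ} (hX : 16 ≤ X) {R : ℝ} {y : ℕ} (hR : 0 < R)
    (h1 : R * X ^ (-ε) ≤ y) (h2 : (y : ℝ) ≤ R * X ^ ε) : X ^ (-ε) ≤ R := by
  have hX0 : 0 < X := by linarith
  have hXe : 0 < X ^ ε := Real.rpow_pos_of_pos hX0 _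
  have hXe' : 0 < X ^ (-ε) := Real.rpow_pos_of_pos hX0 _
  have hinv : X ^ (-ε) * X ^ ε = 1 := by
    rw [← Real.rpow_add hX0]
    simp
  have h3 : (0 : ℝ) < y := lt_of_lt_of_le (by positivity) h1
  have h4 : (1 : ℝ) ≤ y := by
    have : 0 < y := by exact_mod_cast h3
    exact_mod_cast this
  have h5 : 1 ≤ R * X ^ ε := h4.trans h2
  calc X ^ (-ε) = X ^ (-ε) * 1 := by ring
    _ ≤ X ^ (-ε) * (R * X ^ ε) := mul_le_mul_of_nonneg_left h5 hXe'.le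
    _ = R * (X ^ (-ε) * X ^ ε) := by ring
    _ = R := by rw [hinv, mul_one]

theorem sizes {δ ε X : ℝ} {M N : ℕ} {RA RB E U V : ℝ} {W : ℕ} {G : Finset (Fin K)}
    {SA SB SU SV : Finset (Fin K → ℕ)}
    {th : (Fin K → ℕ) → ℝ} {c : (Fin K → ℕ) → (Fin K → ℕ) → (Fin K → ℕ) → (Fin K → ℕ) → ℝ}
    (hε : 0 < ε) (hε2 : 3 * ε ≤ δ) (hX : 16 ≤ X) (hN : 1 ≤ N) (hs : Sz δ X M N RA RB E U V)
    (hf : Fm ε X W RA RB E U V G SA SB SU SV th c) {a r u : Fin K → ℕ} (ha : a ∈ SA)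
    (hr : r ∈ SB) (hu : u ∈ SU) : E * U ≤ X ∧ V ≤ X := by
  have hX0 : 0 < X := by linarith
  have hX1 : 1 ≤ X := by linarith
  have hXe : 0 < X ^ ε := Real.rpow_pos_of_pos hX0 _
  have hXe' : 0 < X ^ (-ε) := Real.rpow_pos_of_pos hX0 _
  have hinv : X ^ (-ε) * X ^ ε = 1 := by
    rw [← Real.rpow_add hX0]
    simp
  have hN1 : (1 : ℝ) ≤ N := by exact_mod_cast hN
  have hM0 : (0 : ℝ) ≤ M := Nat.cast_nonneg M
  have hA := low hX hs.ra (hf.sa1 a ha) (hf.sa2 a ha)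
  have hB := low hX hs.rb (hf.sb1 r hr) (hf.sb2 r hr)
  have hE := low hX hs.e (hf.se1 u hu) (hf.se2 u hu)
  have hMX : (M : ℝ) ≤ 16 * X := by
    have := hs.mn2
    nlinarith
  have hδ1 : X ^ (-δ) * (X ^ ε * X ^ ε) ≤ 1 := by
    rw [← Real.rpow_add hX0, ← Real.rpow_add hX0]
    exact Real.rpow_le_one_of_one_le_of_nonpos hX1 (by linarith)
  have hXd : 0 < X ^ (-δ) := Real.rpow_pos_of_pos hX0 _
  have hEU : 0 < E * U := mul_pos hs.e hs.u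
  constructor
  · have h1 := hs.c2
    have h2 : (E * U) ^ 2 ≤ M := by
      have h3 : X ^ (-ε) * X ^ (-ε) * (E * U) ^ 2 ≤ M * X ^ (-δ) := by
        refine le_trans ?_ h1
        calc X ^ (-ε) * X ^ (-ε) * (E * U) ^ 2 ≤ RA * RB * (E * U) ^ 2 := by
              apply mul_le_mul_of_nonneg_right _ (sq_nonneg _)
              exact mul_le_mul hA hB hXe'.le hs.ra.le
          _ = _ := by ring
      calc (E * U) ^ 2 = (X ^ (-ε) * X ^ ε) * (X ^ (-ε) * X ^ ε) * (E * U) ^ 2 := by rw [hinv]; ring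
        _ = (X ^ (-ε) * X ^ (-ε) * (E * U) ^ 2) * (X ^ ε * X ^ ε) := by ring
        _ ≤ (M * X ^ (-δ)) * (X ^ ε * X ^ ε) := mul_le_mul_of_nonneg_right h3 (by positivity)
        _ = M * (X ^ (-δ) * (X ^ ε * X ^ ε)) := by ring
        _ ≤ M * 1 := mul_le_mul_of_nonneg_left hδ1 hM0
        _ = M := mul_one _
    have h4 : (E * U) ^ 2 ≤ X ^ 2 := by nlinarith
    exact (pow_le_pow_iff_left₀ hEU.le hX0.le (by norm_num)).1 h4
  · have h1 := hs.c3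
    have hmax : 1 ≤ (max 1 (RA * RB * E ^ 2 * U ^ 2 * V ^ 2 / M)) ^ 4 :=
      one_le_pow₀ (le_max_left _ _)
    have hV4 : 0 ≤ V ^ 4 := by positivity
    have h2 : V ^ 4 ≤ N := by
      have h3 : X ^ (-ε) * (X ^ (-ε)) ^ 2 * V ^ 4 ≤ N * X ^ (-δ) := by
        refine le_trans ?_ h1
        calc X ^ (-ε) * (X ^ (-ε)) ^ 2 * V ^ 4 ≤ RA * E ^ 2 * V ^ 4 := by
              apply mul_le_mul_of_nonneg_right _ hV4
              exact mul_le_mul hA (pow_le_pow_left₀ hXe'.le hE 2) (by positivity) hs.ra.le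
          _ = RA * E ^ 2 * V ^ 4 * 1 := by ring
          _ ≤ _ := mul_le_mul_of_nonneg_left hmax
            (mul_nonneg (mul_nonneg hs.ra.le (sq_nonneg _)) hV4)
      have hδ2 : X ^ (-δ) * (X ^ ε) ^ 3 ≤ 1 := by
        rw [← Real.rpow_natCast (X ^ ε) 3, ← Real.rpow_mul hX0.le, ← Real.rpow_add hX0]
        apply Real.rpow_le_one_of_one_le_of_nonpos hX1
        push_cast
        linarith
      calc V ^ 4 = (X ^ (-ε) * X ^ ε) * (X ^ (-ε) * X ^ ε) ^ 2 * V ^ 4 := by rw [hinv]; ring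
        _ = (X ^ (-ε) * (X ^ (-ε)) ^ 2 * V ^ 4) * (X ^ ε) ^ 3 := by ring
        _ ≤ (N * X ^ (-δ)) * (X ^ ε) ^ 3 := mul_le_mul_of_nonneg_right h3 (by positivity)
        _ = N * (X ^ (-δ) * (X ^ ε) ^ 3) := by ring
        _ ≤ N * 1 := mul_le_mul_of_nonneg_left hδ2 (by linarith)
        _ = N := mul_one _
    have h5 : (N : ℝ) ≤ 16 * X := by
      refine hs.n2.trans ?_
      have : X ^ (1 / 2 : ℝ) ≤ X := by
        calc X ^ (1 / 2 : ℝ) ≤ X ^ (1 : ℝ) := Real.rpow_le_rpow_of_exponent_le hX1 (by norm_num)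
          _ = X := Real.rpow_one X
      linarith
    have h6 : V ^ 4 ≤ X ^ 4 := by
      refine h2.trans (h5.trans ?_)
      calc 16 * X ≤ X * X := by nlinarith
        _ ≤ X ^ 4 := by
            have : X ^ 2 ≤ X ^ 4 := pow_le_pow_right₀ hX1 (by norm_num)
            nlinarith
    exact (pow_le_pow_iff_left₀ hs.v.le hX0.le (by norm_num)).1 h6

theorem okp {δ ε X : ℝ} {M N : ℕ} {RA RB E U V : ℝ} {W : ℕ} {G : Finset (Fin K)}
    {SA SB SU SV : Finset (Fin K → ℕ)}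
    {th : (Fin K → ℕ) → ℝ} {c : (Fin K → ℕ) → (Fin K → ℕ) → (Fin K → ℕ) → (Fin K → ℕ) → ℝ}
    (hε : 0 < ε) (hε1 : ε ≤ 1 / 2) (hε2 : 3 * ε ≤ δ) (hX : 16 ≤ X) (hN : 1 ≤ N)
    (hs : Sz δ X M N RA RB E U V)
    (hf : Fm ε X W RA RB E U V G SA SB SU SV th c) {a r : Fin K → ℕ} (ha : a ∈ SA) (hr : r ∈ SB)
    {D : ℕ}
    (hu : ∀ u ∈ SU, ∀ p : ℕ, p.Prime → p ∣ Pr u → D < p)
    (hv : ∀ v ∈ SV, ∀ p : ℕ, p.Prime → p ∣ Pr v → D < p) :
    OKP ⌊X ^ 2⌋₊ D (PP SU SV (c a r)) := by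
  classical
  have hX0 : 0 < X := by linarith
  have hX1 : 1 ≤ X := by linarith
  have hXe' : 0 < X ^ (-ε) := Real.rpow_pos_of_pos hX0 _
  have hXe : 0 < X ^ ε := Real.rpow_pos_of_pos hX0 _
  have hXe1 : 1 ≤ X ^ ε := Real.one_le_rpow hX1 hε.le
  have hXeX : X ^ ε * X ^ ε ≤ X := by
    rw [← Real.rpow_add hX0]
    calc X ^ (ε + ε) ≤ X ^ (1 : ℝ) := Real.rpow_le_rpow_of_exponent_le hX1 (by linarith)
      _ = X := Real.rpow_one X
  have hXeX' : X ^ ε ≤ X := by nlinarith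
  have hmem : ∀ z ∈ PP SU SV (c a r), z.1 ∈ SU ∧ z.2 ∈ SV := by
    intro z hz
    unfold PP at hz
    exact mem_product.1 (mem_filter.1 hz).1
  have key : ∀ (y : Fin K → ℕ), (0 : ℝ) < Pr y → (Pr y : ℝ) ≤ X ^ 2 → y ∈ Bo K ⌊X ^ 2⌋₊ := by
    intro y h3 h5
    have h4 : 0 < Pr y := by exact_mod_cast h3
    unfold Bo
    rw [Fintype.mem_piFinset]
    intro j
    have hj : y j ∣ Pr y := dvd_Pr y j
    rw [mem_Icc]
    constructor
    · exact Nat.pos_of_dvd_of_pos hj h4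
    · exact (Nat.le_of_dvd h4 hj).trans (Nat.le_floor h5)
  constructor
  · intro z hz
    obtain ⟨h1, h2⟩ := hmem z hz
    obtain ⟨hU, hV⟩ := sizes hε hε2 hX hN hs hf ha hr h1
    constructor
    · have e1 : (Pr z.1 : ℝ) = (Pr (rs G z.1) : ℝ) * (Pr (rs Gᶜ z.1) : ℝ) := by
        exact_mod_cast Pr_rs G z.1
      have p1 : (0 : ℝ) < Pr (rs G z.1) :=
        lt_of_lt_of_le (mul_pos hs.e hXe') (hf.se1 _ h1)
      have p2 : (0 : ℝ) < Pr (rs Gᶜ z.1) :=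
        lt_of_lt_of_le (mul_pos hs.u hXe') (hf.su1 _ h1)
      apply key
      · rw [e1]
        positivity
      · rw [e1]
        calc (Pr (rs G z.1) : ℝ) * (Pr (rs Gᶜ z.1) : ℝ) ≤ (E * X ^ ε) * (U * X ^ ε) :=
              mul_le_mul (hf.se2 _ h1) (hf.su2 _ h1) p2.le (mul_pos hs.e hXe).le
          _ = (E * U) * (X ^ ε * X ^ ε) := by ring
          _ ≤ X * X := mul_le_mul hU hXeX (by positivity) hX0.le
          _ = X ^ 2 := by ring
    · have p2 : (0 : ℝ) < Pr z.2 := lt_of_lt_of_le (mul_pos hs.v hXe') (hf.sv1 _ h2)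
      apply key _ p2
      calc (Pr z.2 : ℝ) ≤ V * X ^ ε := hf.sv2 _ h2
        _ ≤ X * X := mul_le_mul hV hXeX' hXe.le hX0.le
        _ = X ^ 2 := by ring
  · intro z hz p hp hpd
    obtain ⟨h1, h2⟩ := hmem z hz
    rcases (hp.dvd_mul).1 hpd with h3 | h3
    · exact hu _ h1 p hp h3
    · exact hv _ h2 p hp h3

/-- TRIV -/
theorem triv : S_TRIV := by
  intro K h W b hy δ hδ
  have ha0 : ∀ j, (h j).1 ≠ 0 := by
    intro j hj
    obtain ⟨p, hp1, hp⟩ := Nat.exists_infinite_primes (W + 1)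
    have hpW : ¬ p ∣ W := fun hc => by
      have := Nat.le_of_dvd hy.wpos hc
      omega
    apply hy.h0 p hp hpW j
    rw [hj]
    exact dvd_zero _
  obtain ⟨C1, C2, hC1, hmom⟩ := mom h ha0
  set ε : ℝ := min (1 / 2) (δ / 3) with hε
  have hε0 : 0 < ε := lt_min (by norm_num) (by linarith)
  have hε1 : ε ≤ 1 / 2 := min_le_left _ _
  have hε2 : 3 * ε ≤ δ := by
    have := min_le_right (1 / 2) (δ / 3)
    linarith
  refine ⟨ε, hε0, ?_⟩
  intro A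
  refine ⟨8 * K + 2 + C2 + A, ?_⟩
  intro B hB
  set c1 : ℝ := 4 * 10 ^ (4 * K) + K ^ 2 with hc1
  set c2 : ℝ := K ^ 2 + 96 * K ^ 2 * 10 ^ (4 * K) with hc2
  have hc10 : 0 < c1 := by positivity
  have hc20 : 0 ≤ c2 := by positivity
  set H : ℕ := ∑ j, (h j).2.natAbs with hH
  -- growth
  have hgrow : ∀ᶠ X : ℝ in atTop, 32 * c1 * C1 * Real.log X ^ (8 * K + C2 + A) ≤ X ^ (δ - ε) := by
    have hδε : 0 < δ - ε := by linarith
    have h1 := (isLittleO_log_rpow_rpow_atTop (r := ((8 * K + C2 + A : ℕ) : ℝ)) (s := δ - ε) hδε).def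
      (c := 1 / (32 * c1 * C1)) (by positivity)
    filter_upwards [h1, eventually_ge_atTop (1 : ℝ)] with X hX hX1
    have hlog : 0 ≤ Real.log X := Real.log_nonneg hX1
    rw [Real.rpow_natCast, Real.norm_of_nonneg (by positivity),
      Real.norm_of_nonneg (by positivity)] at hX
    calc 32 * c1 * C1 * Real.log X ^ (8 * K + C2 + A)
        ≤ 32 * c1 * C1 * (1 / (32 * c1 * C1) * X ^ (δ - ε)) :=
          mul_le_mul_of_nonneg_left hX (by positivity)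
      _ = X ^ (δ - ε) := by field_simp
  have hlogbig : ∀ᶠ X : ℝ in atTop, 64 * c2 * C1 + 1 ≤ Real.log X :=
    Real.tendsto_log_atTop.eventually_ge_atTop _
  filter_upwards [hmom, hgrow, hlogbig, eventually_ge_atTop (Real.exp 1),
    eventually_ge_atTop (16 : ℝ), eventually_gt_atTop (16 * (H : ℝ))] with X hmomX hgr hlb hXe hX16 hXH
  intro M N RA RB E U V hs G SA SB SU SV th c hf hu hv β hβ
  have hX0 : 0 < X := by linarith
  have hX1 : 1 ≤ X := by linarith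
  have hL : 1 ≤ Real.log X := by
    rw [Real.le_log_iff_exp_le hX0]
    exact hXe
  set Λ := Real.log X with hΛ
  have hΛ0 : 0 < Λ := by linarith
  have hN : 1 ≤ N := by
    have h1 := hs.n1
    have h2 : (1 : ℝ) ≤ X ^ (1 / 4 : ℝ) := Real.one_le_rpow hX1 (by norm_num)
    have h3 : (1 : ℝ) ≤ N := h2.trans h1
    exact_mod_cast h3
  -- the parameter D
  set D := D0 X B with hD
  have hΛB : 1 ≤ Λ ^ B := one_le_pow₀ hL
  have hD1 : 0 < D := by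
    rw [hD]
    unfold D0
    exact Nat.floor_pos.2 hΛB
  have hD2 : Λ ^ B ≤ 2 * D := by
    have h1 : Λ ^ B < (⌊Λ ^ B⌋₊ : ℝ) + 1 := Nat.lt_floor_add_one _
    have h2 : (1 : ℝ) ≤ D := by exact_mod_cast hD1
    have h3 : (D : ℝ) = (⌊Λ ^ B⌋₊ : ℝ) := rfl
    linarith
  -- good points
  have hgood : ∀ m ∈ Ioc M (2 * M), ∀ n ∈ Ioc N (2 * N), Good h (m * n) := by
    intro m hm n hn j hj
    rw [mem_Ioc] at hm hn
    have h1 : M * N ≤ m * n := Nat.mul_le_mul hm.1.le hn.1.le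
    have h2 : (X / 16 : ℝ) ≤ ((m * n : ℕ) : ℝ) := hs.mn1.trans (by exact_mod_cast h1)
    have h3 : (h j).2.natAbs ≤ H :=
      single_le_sum (f := fun j => (h j).2.natAbs) (fun _ _ => Nat.zero_le _) (mem_univ j)
    have h4 : (H : ℝ) < ((m * n : ℕ) : ℝ) := by linarith
    have h5 : H < m * n := by exact_mod_cast h4
    have h6 : ((h j).1 * ((m * n : ℕ) : ℤ)).natAbs = (h j).2.natAbs := by
      have e : (h j).1 * ((m * n : ℕ) : ℤ) = - (h j).2 := by linarith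
      rw [e, Int.natAbs_neg]
    rw [Int.natAbs_mul, Int.natAbs_natCast] at h6
    have h7 : 1 * (m * n) ≤ (h j).1.natAbs * (m * n) :=
      Nat.mul_le_mul_right _ (Int.natAbs_pos.2 (ha0 j))
    omega
  -- the main bound
  have hpos : ∀ a ∈ SA, ∀ r ∈ SB, 0 < Pr a * Pr r := by
    intro a ha r hr
    have h1 : (0 : ℝ) < Pr a :=
      lt_of_lt_of_le (mul_pos hs.ra (Real.rpow_pos_of_pos hX0 _)) (hf.sa1 a ha)
    have h2 : (0 : ℝ) < Pr r :=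
      lt_of_lt_of_le (mul_pos hs.rb (Real.rpow_pos_of_pos hX0 _)) (hf.sb1 r hr)
    exact Nat.mul_pos (by exact_mod_cast h1) (by exact_mod_cast h2)
  have hXe0 : 0 < X ^ ε := Real.rpow_pos_of_pos hX0 _
  have hmain := main_bound hy (Z := ⌊X ^ 2⌋₊) (D := D) (M := M) (N := N) (RA := RA) (RB := RB)
    (Xe := X ^ ε) (SU := SU) (SV := SV) hD1 hs.ra hs.rb hXe0.le hf.cb hf.cs hpos
    (fun a ha => zero_le_one.trans (hf.th1 a ha)) hf.th2 hf.sar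
    (fun a ha r hr => okp hε0 hε1 hε2 hX16 hN hs hf ha hr hu hv) β hgood
  refine hmain.trans ?_
  have hM := hmomX M N hs.mn2 β hβ
  -- the constants
  have hZlog : Real.log (⌊X ^ 2⌋₊ : ℝ) ≤ 2 * Λ := by
    have h1 : (⌊X ^ 2⌋₊ : ℝ) ≤ X ^ 2 := Nat.floor_le (by positivity)
    have h2 : 0 < ⌊X ^ 2⌋₊ := Nat.floor_pos.2 (one_le_pow₀ hX1)
    have h3 : (0 : ℝ) < (⌊X ^ 2⌋₊ : ℝ) := by exact_mod_cast h2
    refine (Real.log_le_log h3 h1).trans (le_of_eq ?_)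
    rw [Real.log_pow, ← hΛ]
    norm_num
  have hPh := Ph_le (K := K) hL hZlog
  have hPh1 := one_le_Ph (K := K) ⌊X ^ 2⌋₊
  have hPh2 : Ph K ⌊X ^ 2⌋₊ ^ 2 ≤ 10 ^ (4 * K) * Λ ^ (8 * K) := by
    calc Ph K ⌊X ^ 2⌋₊ ^ 2 ≤ (10 ^ (2 * K) * Λ ^ (4 * K)) ^ 2 :=
          pow_le_pow_left₀ (by linarith) hPh 2
      _ = _ := by
          rw [mul_pow, ← pow_mul, ← pow_mul]
          congr 2
          · ring
          · ring
  have hb1 : 4 * Ph K ⌊X ^ 2⌋₊ ^ 2 + K ^ 2 ≤ c1 * Λ ^ (8 * K) := by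
    have h1 : (1 : ℝ) ≤ Λ ^ (8 * K) := one_le_pow₀ hL
    have h2 : (K : ℝ) ^ 2 ≤ K ^ 2 * Λ ^ (8 * K) := le_mul_of_one_le_right (by positivity) h1
    rw [hc1]
    linarith
  have hDr : (0 : ℝ) < D := by exact_mod_cast hD1
  have hb2 : K ^ 2 / D + kap K ⌊X ^ 2⌋₊ D ≤ c2 * Λ ^ (8 * K + 1) / D := by
    unfold kap
    rw [← add_div]
    apply div_le_div_of_nonneg_right _ hDr.le
    have h1 : (1 : ℝ) ≤ Λ ^ (8 * K + 1) := one_le_pow₀ hL
    have h2 : (K : ℝ) ^ 2 ≤ K ^ 2 * Λ ^ (8 * K + 1) := le_mul_of_one_le_right (by positivity) h1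
    have h0 : 0 ≤ Real.log (⌊X ^ 2⌋₊ : ℝ) := Real.log_natCast_nonneg _
    have h3 : 48 * (K : ℝ) ^ 2 * Real.log (⌊X ^ 2⌋₊ : ℝ) * Ph K ⌊X ^ 2⌋₊ ^ 2 ≤
        48 * (K : ℝ) ^ 2 * (2 * Λ) * (10 ^ (4 * K) * Λ ^ (8 * K)) := by gcongr
    have h4 : 48 * (K : ℝ) ^ 2 * (2 * Λ) * (10 ^ (4 * K) * Λ ^ (8 * K)) =
        96 * K ^ 2 * 10 ^ (4 * K) * Λ ^ (8 * K + 1) := by ring
    rw [hc2]
    linarith
  have hRR : 0 < RA * RB := mul_pos hs.ra hs.rb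
  have hNR : (0 : ℝ) ≤ N / (RA * RB) := by positivity
  have hMN : (0 : ℝ) ≤ (M : ℝ) * N := by positivity
  have hXMN : X ≤ 16 * ((M : ℝ) * N) := by
    have := hs.mn1
    linarith
  set T : ℝ := (M : ℝ) * (N : ℝ) ^ 2 / (RA * RB) with hT
  have hT0 : 0 ≤ T := by positivity
  have hmom0 : 0 ≤ C1 * X * Λ ^ C2 := by positivity
  have hK0 := kap_nonneg (K := K) ⌊X ^ 2⌋₊ D
  have hstep : (X ^ ε * (4 * Ph K ⌊X ^ 2⌋₊ ^ 2 + K ^ 2) +
      N / (RA * RB) * (K ^ 2 / D + kap K ⌊X ^ 2⌋₊ D)) *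
      ∑ m ∈ Ioc M (2 * M), ∑ n ∈ Ioc N (2 * N), β n ^ 2 * Gd h (m * n) ^ 7 ≤
      (X ^ ε * (c1 * Λ ^ (8 * K)) + N / (RA * RB) * (c2 * Λ ^ (8 * K + 1) / D)) *
        (C1 * X * Λ ^ C2) := by
    apply mul_le_mul _ hM _ (by positivity)
    · exact add_le_add (mul_le_mul_of_nonneg_left hb1 hXe0.le)
        (mul_le_mul_of_nonneg_left hb2 hNR)
    · apply sum_nonneg
      intro m _
      apply sum_nonneg
      intro n _
      exact mul_nonneg (sq_nonneg _) (pow_nonneg (Gd_nonneg _) _)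
  refine hstep.trans ?_
  -- the first term
  have hMNT : (M : ℝ) * N ≤ T * X ^ (-δ) := by
    have h1 := hs.c1
    rw [hT, div_mul_eq_mul_div, le_div_iff₀ hRR]
    calc (M : ℝ) * N * (RA * RB) ≤ M * N * (N * X ^ (-δ)) := mul_le_mul_of_nonneg_left h1 hMN
      _ = _ := by ring
  have hXδ : X ^ (-δ) * X ^ ε * X ^ (δ - ε) = 1 := by
    rw [← Real.rpow_add hX0, ← Real.rpow_add hX0]
    ring_nf
    exact Real.rpow_zero X
  have hXd : 0 < X ^ (-δ) := Real.rpow_pos_of_pos hX0 _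
  have hΛA : 0 < Λ ^ A := by positivity
  have t1 : X ^ ε * (c1 * Λ ^ (8 * K)) * (C1 * X * Λ ^ C2) ≤ T / (2 * Λ ^ A) := by
    rw [le_div_iff₀ (by positivity)]
    calc X ^ ε * (c1 * Λ ^ (8 * K)) * (C1 * X * Λ ^ C2) * (2 * Λ ^ A)
        = (2 * c1 * C1 * Λ ^ (8 * K + C2 + A)) * X ^ ε * X := by ring
      _ ≤ (2 * c1 * C1 * Λ ^ (8 * K + C2 + A)) * X ^ ε * (16 * (T * X ^ (-δ))) := by
          apply mul_le_mul_of_nonneg_left _ (by positivity)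
          linarith
      _ = (32 * c1 * C1 * Λ ^ (8 * K + C2 + A)) * (T * (X ^ (-δ) * X ^ ε)) := by ring
      _ ≤ X ^ (δ - ε) * (T * (X ^ (-δ) * X ^ ε)) :=
          mul_le_mul_of_nonneg_right hgr (by positivity)
      _ = T * (X ^ (-δ) * X ^ ε * X ^ (δ - ε)) := by ring
      _ = T := by rw [hXδ, mul_one]
  have t2 : N / (RA * RB) * (c2 * Λ ^ (8 * K + 1) / D) * (C1 * X * Λ ^ C2) ≤ T / (2 * Λ ^ A) := by
    rw [le_div_iff₀ (by positivity)]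
    have h1 : N / (RA * RB) * X ≤ 16 * T := by
      calc N / (RA * RB) * X ≤ N / (RA * RB) * (16 * ((M : ℝ) * N)) :=
            mul_le_mul_of_nonneg_left hXMN hNR
        _ = 16 * T := by rw [hT]; ring
    have h2 : 64 * c2 * C1 * Λ ^ (8 * K + 1 + C2 + A) ≤ Λ ^ B := by
      calc 64 * c2 * C1 * Λ ^ (8 * K + 1 + C2 + A) ≤ Λ * Λ ^ (8 * K + 1 + C2 + A) := by
            apply mul_le_mul_of_nonneg_right _ (by positivity)
            linarith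
        _ = Λ ^ (8 * K + 2 + C2 + A) := by ring
        _ ≤ Λ ^ B := pow_le_pow_right₀ hL hB
    have h3 : 64 * c2 * C1 * Λ ^ (8 * K + 1 + C2 + A) ≤ 2 * D := h2.trans hD2
    calc N / (RA * RB) * (c2 * Λ ^ (8 * K + 1) / D) * (C1 * X * Λ ^ C2) * (2 * Λ ^ A)
        = (N / (RA * RB) * X) * (2 * c2 * C1 * Λ ^ (8 * K + 1 + C2 + A)) / D := by ring
      _ ≤ (16 * T) * (2 * c2 * C1 * Λ ^ (8 * K + 1 + C2 + A)) / D := by gcongr
      _ = T * (64 * c2 * C1 * Λ ^ (8 * K + 1 + C2 + A)) / (2 * D) := by field_simp; ring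
      _ ≤ T * (2 * D) / (2 * D) := by gcongr
      _ = T := by field_simp
  calc (X ^ ε * (c1 * Λ ^ (8 * K)) + N / (RA * RB) * (c2 * Λ ^ (8 * K + 1) / D)) *
        (C1 * X * Λ ^ C2)
      = X ^ ε * (c1 * Λ ^ (8 * K)) * (C1 * X * Λ ^ C2) +
        N / (RA * RB) * (c2 * Λ ^ (8 * K + 1) / D) * (C1 * X * Λ ^ C2) := by ring
    _ ≤ T / (2 * Λ ^ A) + T / (2 * Λ ^ A) := add_le_add t1 t2
    _ = T / Λ ^ A := by field_simp; ring

end Pool.Agent.Y826.ZL.Y474
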