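import Pool.Agent.Y826.ZL.Defs
import Pool.Agent.TH935.LP.L1

/-!
Project Y826/Z, TRIV: counting lemmas.
-/

set_option autoImplicit false

namespace Pool.Agent.Y826.ZL.Y474

open Finset Filter
open Pool.Agent.Y826.Z

theorem ind_nonneg (P : Prop) : 0 ≤ ind P := by
  unfold ind
  split_ifs <;> norm_num

theorem ind_le_one (P : Prop) : ind P ≤ 1 := by
  unfold ind
  split_ifs <;> norm_num

theorem ind_pos {P : Prop} (h : P) : ind P = 1 := by
  unfold ind
  rw [if_pos h]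

theorem ind_neg {P : Prop} (h : ¬ P) : ind P = 0 := by
  unfold ind
  rw [if_neg h]

theorem ind_mul_self (P : Prop) : ind P * ind P = ind P := by
  unfold ind
  split_ifs <;> norm_num

theorem ind_congr {P Q : Prop} (h : P ↔ Q) : ind P = ind Q := by
  rw [propext h]

theorem ind_mono {P Q : Prop} (h : P → Q) : ind P ≤ ind Q := by
  by_cases hP : P
  · rw [ind_pos hP, ind_pos (h hP)]
  · rw [ind_neg hP]
    exact ind_nonneg Q

open Classical in
theorem sum_ind {ι : Type*} (S : Finset ι) (P : ι → Prop) :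
    ∑ i ∈ S, ind (P i) = ((S.filter P).card : ℝ) := by
  unfold ind
  rw [sum_ite, sum_const_zero, add_zero, sum_const, nsmul_eq_mul, mul_one]

/-! ### classes -/

theorem card_class_le (N q : ℕ) (hq : 0 < q) (S : Finset ℕ) (hS : S ⊆ Ioc N (2 * N))
    (hc : ∀ x ∈ S, ∀ y ∈ S, x ≡ y [MOD q]) : (S.card : ℝ) ≤ N / q + 1 := by
  rcases S.eq_empty_or_nonempty with h | ⟨v, hv⟩
  · rw [h]
    simp only [card_empty, Nat.cast_zero]
    positivity
  have hv' := mem_Ioc.1 (hS hv)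
  have hcard : S.card ≤ (range ((N - 1) / q + 1)).card := by
    apply card_le_card_of_injOn (fun x => (x - N - 1) / q)
    · intro x hx
      have hx' := mem_Ioc.1 (hS hx)
      rw [mem_coe, mem_range, Nat.lt_succ_iff]
      apply Nat.div_le_div_right
      omega
    · intro x hx y hy hxy
      have hx' := mem_Ioc.1 (hS hx)
      have hy' := mem_Ioc.1 (hS hy)
      have h1 := hc x hx y hy
      have h2 : (x - N - 1) ≡ (y - N - 1) [MOD q] := by
        have e1 : x = (x - N - 1) + (N + 1) := by omega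
        have e2 : y = (y - N - 1) + (N + 1) := by omega
        rw [e1, e2] at h1
        exact Nat.ModEq.add_right_cancel' _ h1
      have h3 : x - N - 1 = y - N - 1 := by
        rw [← Nat.div_add_mod (x - N - 1) q, ← Nat.div_add_mod (y - N - 1) q]
        have h4 : (x - N - 1) % q = (y - N - 1) % q := h2
        simp only at hxy
        rw [hxy, h4]
      omega
  rw [card_range] at hcard
  have h5 : (((N - 1) / q : ℕ) : ℝ) ≤ N / q := by
    refine Nat.cast_div_le.trans ?_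
    have : ((N - 1 : ℕ) : ℝ) ≤ N := by exact_mod_cast Nat.sub_le N 1
    gcongr
  have h6 : (S.card : ℝ) ≤ (((N - 1) / q : ℕ) : ℝ) + 1 := by exact_mod_cast hcard
  linarith

open Classical in
theorem card_other (N t n1 : ℕ) (ht : 0 < t) (hn1 : n1 ∈ Ioc N (2 * N)) :
    (((Ioc N (2 * N)).filter (fun n2 => n1 ≠ n2 ∧ n1 ≡ n2 [MOD t])).card : ℝ) ≤ N / t := by
  have h1 : insert n1 ((Ioc N (2 * N)).filter (fun n2 => n1 ≠ n2 ∧ n1 ≡ n2 [MOD t])) ⊆
      Ioc N (2 * N) := by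
    intro x hx
    rw [mem_insert] at hx
    rcases hx with rfl | hx
    · exact hn1
    · exact (mem_filter.1 hx).1
  have h2 := card_class_le N t ht _ h1 (by
    have key : ∀ x ∈ insert n1 ((Ioc N (2 * N)).filter (fun n2 => n1 ≠ n2 ∧ n1 ≡ n2 [MOD t])),
        n1 ≡ x [MOD t] := by
      intro x hx
      rw [mem_insert] at hx
      rcases hx with rfl | hx
      · exact Nat.ModEq.refl _
      · exact (mem_filter.1 hx).2.2
    intro x hx y hy
    exact (key x hx).symm.trans (key y hy))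
  rw [card_insert_of_notMem (by
    intro h
    exact (mem_filter.1 h).2.1 rfl)] at h2
  push_cast at h2
  linarith

/-! ### tuples -/

variable {K : ℕ} (h : Fin K → ℤ × ℤ)

/-- product of the numbers of divisors of the shifts -/
noncomputable def Gd (x : ℕ) : ℝ := ∏ j, tau ((h j).1 * (x : ℤ) + (h j).2).natAbs

/-- the shifts do not vanish -/
def Good (x : ℕ) : Prop := ∀ j, (h j).1 * (x : ℤ) + (h j).2 ≠ 0

variable {h}

theorem one_le_tau {n : ℕ} (hn : n ≠ 0) : 1 ≤ tau n := by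
  unfold tau
  have : 0 < n.divisors.card := card_pos.2 ⟨1, Nat.one_mem_divisors.2 hn⟩
  exact_mod_cast this

theorem tau_nonneg (n : ℕ) : 0 ≤ tau n := Nat.cast_nonneg _

theorem one_le_Gd {x : ℕ} (hx : Good h x) : 1 ≤ Gd h x := by
  unfold Gd
  have h1 : ∀ j ∈ (univ : Finset (Fin K)), (1 : ℝ) ≤ tau ((h j).1 * (x : ℤ) + (h j).2).natAbs :=
    fun j _ => one_le_tau (Int.natAbs_ne_zero.2 (hx j))
  calc (1 : ℝ) = ∏ _j : Fin K, (1 : ℝ) := by simp
    _ ≤ _ := prod_le_prod (fun _ _ => zero_le_one) h1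

theorem tau_le_Gd {x : ℕ} (hx : Good h x) (j : Fin K) : tau ((h j).1 * (x : ℤ) + (h j).2).natAbs ≤ Gd h x := by
  unfold Gd
  rw [← mul_prod_erase univ _ (mem_univ j)]
  apply le_mul_of_one_le_right (tau_nonneg _)
  calc (1 : ℝ) = ∏ _j ∈ (univ : Finset (Fin K)).erase j, (1 : ℝ) := by simp
    _ ≤ _ := prod_le_prod (fun _ _ => zero_le_one)
      (fun i _ => one_le_tau (Int.natAbs_ne_zero.2 (hx i)))

open Classical in
/-- the tuples of divisors -/
noncomputable def Tp (h : Fin K → ℤ × ℤ) (x : ℕ) : Finset (Fin K → ℕ) :=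
  Fintype.piFinset (fun j => ((h j).1 * (x : ℤ) + (h j).2).natAbs.divisors)

theorem mem_Tp {x : ℕ} (hx : Good h x) {u : Fin K → ℕ} (hu : Cd h u x) : u ∈ Tp h x := by
  unfold Tp
  rw [Fintype.mem_piFinset]
  intro j
  rw [Nat.mem_divisors]
  exact ⟨Int.natCast_dvd.1 (hu j), Int.natAbs_ne_zero.2 (hx j)⟩

theorem card_Tp (x : ℕ) : ((Tp h x).card : ℝ) = Gd h x := by
  unfold Tp Gd tau
  rw [Fintype.card_piFinset]
  push_cast
  rfl

/-- pairs of tuples satisfying the divisibility conditions -/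
theorem card_pairs {x : ℕ} (hx : Good h x) (P : Finset ((Fin K → ℕ) × (Fin K → ℕ))) :
    ∑ z ∈ P, ind (Cd h z.1 x ∧ Cd h z.2 x) ≤ Gd h x ^ 2 := by
  classical
  rw [sum_ind]
  have h1 : P.filter (fun z => Cd h z.1 x ∧ Cd h z.2 x) ⊆ Tp h x ×ˢ Tp h x := by
    intro z hz
    obtain ⟨-, h2, h3⟩ := mem_filter.1 hz
    exact mem_product.2 ⟨mem_Tp hx h2, mem_Tp hx h3⟩
  have h2 := card_le_card h1
  rw [card_product] at h2
  have h3 : ((P.filter (fun z => Cd h z.1 x ∧ Cd h z.2 x)).card : ℝ) ≤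
      ((Tp h x).card : ℝ) * ((Tp h x).card : ℝ) := by exact_mod_cast h2
  rw [card_Tp] at h3
  refine (le_of_eq ?_).trans (h3.trans (le_of_eq (by ring)))
  congr

theorem card_pairs' {x : ℕ} (hx : Good h x) (SA SB : Finset (Fin K → ℕ)) :
    ∑ a ∈ SA, ∑ r ∈ SB, ind (Cd h a x ∧ Cd h r x) ≤ Gd h x ^ 2 := by
  rw [← sum_product']
  exact card_pairs hx (SA ×ˢ SB)

/-! ### bad pairs -/

/-- the two points have a common large prime -/
def BadP (h : Fin K → ℤ × ℤ) (D t : ℕ) (x1 x2 : ℕ) : Prop :=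
  ∃ p : ℕ, p.Prime ∧ D < p ∧ ¬ p ∣ t ∧ (∃ i, (p : ℤ) ∣ (h i).1 * (x1 : ℤ) + (h i).2) ∧ ∃ j, (p : ℤ) ∣ (h j).1 * (x2 : ℤ) + (h j).2

theorem BadP_symm {D t x1 x2 : ℕ} (hb : BadP h D t x1 x2) : BadP h D t x2 x1 := by
  obtain ⟨p, h1, h2, h3, h4, h5⟩ := hb
  exact ⟨p, h1, h2, h3, h5, h4⟩

open Classical in
theorem card_bad {W b : ℕ} (hy' : Hyp h W b) {D t m n1 N : ℕ} (hWt : W ∣ t) (ht : 0 < t) (hD : 0 < D)
    (hx : Good h (m * n1)) :
    (((Ioc N (2 * N)).filter (fun n2 => (n1 ≠ n2 ∧ n1 ≡ n2 [MOD t]) ∧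
      BadP h D t (m * n1) (m * n2))).card : ℝ) ≤
      K ^ 2 * Gd h (m * n1) * (N / (t * D) + 1) := by
  -- the primes
  set Q : Fin K → Finset ℕ := fun i =>
    (((h i).1 * ((m * n1 : ℕ) : ℤ) + (h i).2).natAbs.primeFactors).filter (fun p => D < p ∧ ¬ p ∣ t) with hQ
  have hcov : (Ioc N (2 * N)).filter (fun n2 => (n1 ≠ n2 ∧ n1 ≡ n2 [MOD t]) ∧
      BadP h D t (m * n1) (m * n2)) ⊆
      (univ : Finset (Fin K)).biUnion (fun i => (Q i).biUnion (fun p =>
        (univ : Finset (Fin K)).biUnion (fun j => (Ioc N (2 * N)).filter (fun n2 =>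
          n1 ≡ n2 [MOD t] ∧ (p : ℤ) ∣ (h j).1 * ((m * n2 : ℕ) : ℤ) + (h j).2)))) := by
    intro n2 hn2
    obtain ⟨h1, ⟨h2, h3⟩, p, hp, hpD, hpt, ⟨i, hi⟩, ⟨j, hj⟩⟩ := mem_filter.1 hn2
    rw [mem_biUnion]
    refine ⟨i, mem_univ _, ?_⟩
    rw [mem_biUnion]
    refine ⟨p, ?_, ?_⟩
    · simp only [hQ]
      rw [mem_filter, Nat.mem_primeFactors]
      exact ⟨⟨hp, Int.natCast_dvd.1 hi, Int.natAbs_ne_zero.2 (hx i)⟩, hpD, hpt⟩
    · rw [mem_biUnion]
      exact ⟨j, mem_univ _, mem_filter.2 ⟨h1, h3, hj⟩⟩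
  have hcount : ∀ i, ∀ p ∈ Q i, ∀ j, (((Ioc N (2 * N)).filter (fun n2 =>
      n1 ≡ n2 [MOD t] ∧ (p : ℤ) ∣ (h j).1 * ((m * n2 : ℕ) : ℤ) + (h j).2)).card : ℝ) ≤ N / (t * D) + 1 := by
    intro i p hp j
    simp only [hQ] at hp
    obtain ⟨hp1, hpD, hpt⟩ := mem_filter.1 hp
    obtain ⟨hpp, hpd, -⟩ := Nat.mem_primeFactors.1 hp1
    have hpW : ¬ p ∣ W := fun hc => hpt (hc.trans hWt)
    have hpm : ¬ p ∣ m := by
      intro hc
      apply hy'.h1 p hpp hpW i
      have h4 : (p : ℤ) ∣ (h i).1 * ((m * n1 : ℕ) : ℤ) + (h i).2 := Int.natCast_dvd.2 hpd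
      have h5 : (p : ℤ) ∣ ((m * n1 : ℕ) : ℤ) := by exact_mod_cast hc.trans (Dvd.intro _ rfl)
      exact (Int.dvd_iff_dvd_of_dvd_add h4).1 (Dvd.dvd.mul_left h5 _)
    have hcop : t.Coprime p := (Nat.Coprime.symm ((Nat.Prime.coprime_iff_not_dvd hpp).2 hpt))
    have h6 := card_class_le N (t * p) (Nat.mul_pos ht hpp.pos) ((Ioc N (2 * N)).filter (fun n2 =>
      n1 ≡ n2 [MOD t] ∧ (p : ℤ) ∣ (h j).1 * ((m * n2 : ℕ) : ℤ) + (h j).2)) (filter_subset _ _) (by
        intro x hx y hy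
        obtain ⟨-, hx1, hx2⟩ := mem_filter.1 hx
        obtain ⟨-, hy1, hy2⟩ := mem_filter.1 hy
        rw [← Nat.modEq_and_modEq_iff_modEq_mul hcop]
        refine ⟨hx1.symm.trans hy1, ?_⟩
        have hpp' : Prime (p : ℤ) := Nat.prime_iff_prime_int.1 hpp
        have h7 : (p : ℤ) ∣ (h j).1 * ((m : ℤ) * ((x : ℤ) - y)) := by
          have := dvd_sub hx2 hy2
          have e : (h j).1 * ((m * x : ℕ) : ℤ) + (h j).2 - ((h j).1 * ((m * y : ℕ) : ℤ) + (h j).2) =
            (h j).1 * ((m : ℤ) * ((x : ℤ) - y)) := by push_cast; ring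
          rwa [e] at this
        have h8 : (p : ℤ) ∣ (m : ℤ) * ((x : ℤ) - y) := by
          rcases hpp'.dvd_or_dvd h7 with h9 | h9
          · exact absurd h9 (hy'.h0 p hpp hpW j)
          · exact h9
        rcases hpp'.dvd_or_dvd h8 with h9 | h9
        · exact absurd (Int.natCast_dvd_natCast.1 h9) hpm
        · exact ((Nat.modEq_iff_dvd).2 (by
            have := (dvd_neg).2 h9
            rwa [neg_sub] at this)))
    refine h6.trans ?_
    have h10 : (D : ℝ) ≤ p := by exact_mod_cast hpD.le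
    have hD' : (0 : ℝ) < D := by exact_mod_cast hD
    have ht' : (0 : ℝ) < t := by exact_mod_cast ht
    push_cast
    gcongr
  have hQc : ∀ i, ((Q i).card : ℝ) ≤ Gd h (m * n1) := by
    intro i
    have h1 : (Q i).card ≤ ((h i).1 * ((m * n1 : ℕ) : ℤ) + (h i).2).natAbs.divisors.card := by
      apply card_le_card
      intro p hp
      simp only [hQ] at hp
      obtain ⟨hp1, -⟩ := mem_filter.1 hp
      obtain ⟨hpp, hpd, hp0⟩ := Nat.mem_primeFactors.1 hp1
      exact Nat.mem_divisors.2 ⟨hpd, hp0⟩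
    have h2 : ((Q i).card : ℝ) ≤ tau ((h i).1 * ((m * n1 : ℕ) : ℤ) + (h i).2).natAbs := by
      unfold tau
      exact_mod_cast h1
    exact h2.trans (tau_le_Gd hx i)
  have hB0 : (0 : ℝ) ≤ N / (t * D) + 1 := by positivity
  refine (Nat.cast_le.2 (card_le_card hcov)).trans ?_
  refine (Nat.cast_le.2 card_biUnion_le).trans ?_
  push_cast
  calc ∑ i : Fin K, (((Q i).biUnion (fun p =>
        (univ : Finset (Fin K)).biUnion (fun j => (Ioc N (2 * N)).filter (fun n2 =>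
          n1 ≡ n2 [MOD t] ∧ (p : ℤ) ∣ (h j).1 * ((m * n2 : ℕ) : ℤ) + (h j).2)))).card : ℝ)
      ≤ ∑ _i : Fin K, Gd h (m * n1) * (K * (N / (t * D) + 1)) := by
        apply sum_le_sum
        intro i _
        refine (Nat.cast_le.2 card_biUnion_le).trans ?_
        push_cast
        calc ∑ p ∈ Q i, (((univ : Finset (Fin K)).biUnion (fun j => (Ioc N (2 * N)).filter
              (fun n2 => n1 ≡ n2 [MOD t] ∧ (p : ℤ) ∣ (h j).1 * ((m * n2 : ℕ) : ℤ) + (h j).2))).card : ℝ)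
            ≤ ∑ _p ∈ Q i, (K * (N / (t * D) + 1) : ℝ) := by
              apply sum_le_sum
              intro p hp
              refine (Nat.cast_le.2 card_biUnion_le).trans ?_
              push_cast
              refine (sum_le_sum fun j _ => hcount i p hp j).trans (le_of_eq ?_)
              rw [sum_const, card_univ, Fintype.card_fin, nsmul_eq_mul]
          _ = (Q i).card * (K * (N / (t * D) + 1)) := by rw [sum_const, nsmul_eq_mul]
          _ ≤ Gd h (m * n1) * (K * (N / (t * D) + 1)) :=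
              mul_le_mul_of_nonneg_right (hQc i) (by positivity)
    _ = K ^ 2 * Gd h (m * n1) * (N / (t * D) + 1) := by
        rw [sum_const, card_univ, Fintype.card_fin, nsmul_eq_mul]
        ring

end Pool.Agent.Y826.ZL.Y474
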